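import Pool.Agent.H2.SpA

set_option autoImplicit false

namespace Pool.Agent.Results.MP_abea68_an.NoSPR

/-- No linear isometric embedding of `C[1, ω^ω]` into itself has an image doing stable phase
retrieval. -/
theorem result :
    ¬ ∃ (T : C(Set.Icc (1 : Ordinal.{0}) (Ordinal.omega0 ^ Ordinal.omega0), ℝ) →ₗᵢ[ℝ]
        C(Set.Icc (1 : Ordinal.{0}) (Ordinal.omega0 ^ Ordinal.omega0), ℝ)) (C : ℝ),
      1 ≤ C ∧ ∀ f ∈ Set.range T, ∀ g ∈ Set.range T,
        min ‖f - g‖ ‖f + g‖ ≤ C * ‖|f| - |g|‖ := by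
  rintro ⟨T, C, hC, h⟩
  refine Pool.Agent.H2.SpA.main T.toContinuousLinearMap (fun f => T.norm_map f) (1 / (2 * C))
    (by positivity) fun f g hf hg => ?_
  by_contra hc
  push Not at hc
  have h1 := h (T (f + g)) ⟨_, rfl⟩ (T (f - g)) ⟨_, rfl⟩
  rw [← map_sub, ← map_add, T.norm_map, T.norm_map,
    show f + g - (f - g) = (2 : ℝ) • g by module, show f + g + (f - g) = (2 : ℝ) • f by module,
    norm_smul, norm_smul, hf, hg, min_self] at h1
  have h2 : ‖|T (f + g)| - |T (f - g)|‖ ≤ 2 * (1 / (2 * C)) := by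
    refine (ContinuousMap.norm_le _ (by positivity)).mpr fun s => ?_
    rw [map_add, map_sub]
    simp only [ContinuousMap.sub_apply, ContinuousMap.abs_apply, ContinuousMap.add_apply,
      Real.norm_eq_abs]
    have h3 := hc s
    change 1 / (2 * C) ≤ |T f s| → |T g s| < 1 / (2 * C) at h3
    by_cases h4 : 1 / (2 * C) ≤ |T f s|
    · have h5 := abs_abs_sub_abs_le_abs_sub (T f s + T g s) (T f s - T g s)
      rw [show T f s + T g s - (T f s - T g s) = 2 * T g s by ring, abs_mul, abs_two] at h5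
      linarith [h3 h4]
    · have h5 := abs_abs_sub_abs_le_abs_sub (T f s + T g s) (-(T f s - T g s))
      rw [show T f s + T g s - -(T f s - T g s) = 2 * T f s by ring, abs_mul, abs_two,
        abs_neg] at h5
      linarith [not_le.mp h4]
  have h6 : C * (2 * (1 / (2 * C))) = 1 := by field_simp
  have h7 := mul_le_mul_of_nonneg_left h2 (by linarith : 0 ≤ C)
  rw [Real.norm_two] at h1
  linarith

end Pool.Agent.Results.MP_abea68_an.NoSPR
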